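import Mathlib

/-!
Random lists of integers, with and without a planted solution of 3SUM.
-/

namespace SmallDepth

/-- The integers between `-r` and `r`. -/
def centered (r : ℕ) (v : Fin (2 * r + 1)) : ℤ := (v : ℤ) - r

/-- The list of integers between `-r` and `r` that is given by `x`. -/
def intList {n r : ℕ} (x : Fin n → Fin (2 * r + 1)) : Fin n → ℤ := fun i => centered r (x i)

/-- Three entries with different indices have the sum `0`. -/
def HasZeroSum {n : ℕ} (x : Fin n → ℤ) : Prop :=
  ∃ i j k : Fin n, i ≠ j ∧ j ≠ k ∧ i ≠ k ∧ x i + x j + x k = 0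

/-- The triples of integers between `-r` and `r` with sum `0`. -/
abbrev ZeroTriple (r : ℕ) : Type :=
  {z : Fin 3 → Fin (2 * r + 1) // centered r (z 0) + centered r (z 1) + centered r (z 2) = 0}

/-- The list `x` in which the entries with the indices `c 0`, `c 1`, `c 2` are replaced by `z`. -/
noncomputable def plantList {n r : ℕ} (c : Fin 3 ↪ Fin n) (z : ZeroTriple r)
    (x : Fin n → Fin (2 * r + 1)) : Fin n → Fin (2 * r + 1) :=
  Function.extend c z.1 x

open Classical in
/-- The probability of the event `f` for a list of `n` independent and uniformly random integers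
between `-r` and `r`. -/
noncomputable def uniformPr (n r : ℕ) (f : (Fin n → ℤ) → Prop) : ℝ :=
  ((Finset.univ.filter (fun x : Fin n → Fin (2 * r + 1) => f (intList x))).card : ℝ) /
    Fintype.card (Fin n → Fin (2 * r + 1))

open Classical in
/-- The probability of the event `f` for such a list in which three uniformly random entries are
replaced by a uniformly random triple with sum `0`. -/
noncomputable def plantedPr (n r : ℕ) (f : (Fin n → ℤ) → Prop) : ℝ :=
  ((Finset.univ.filter (fun y : (Fin 3 ↪ Fin n) × ZeroTriple r × (Fin n → Fin (2 * r + 1)) =>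
    f (intList (plantList y.1 y.2.1 y.2.2)))).card : ℝ) /
    Fintype.card ((Fin 3 ↪ Fin n) × ZeroTriple r × (Fin n → Fin (2 * r + 1)))

end SmallDepth
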