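import Mathlib
import Pool.Agent.H592R9.SumDefs

/-!
Counting triples with sum zero.
-/

set_option linter.unusedSectionVars false

namespace H592R3.Hp

open Finset SmallDepth

lemma centered_inj (r : ℕ) : Function.Injective (centered r) := by
  intro v v' h
  unfold centered at h
  apply Fin.ext
  omega

lemma third (m m' : Fin 3) (h : m ≠ m') : ∃ m'' : Fin 3, m'' ≠ m ∧ m'' ≠ m' ∧
    ∀ k : Fin 3, k = m ∨ k = m' ∨ k = m'' := by
  revert m m'
  decide

lemma other (m : Fin 3) : ∃ m' m'' : Fin 3, m ≠ m' ∧ m ≠ m'' ∧ m' ≠ m'' ∧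
    ∀ k : Fin 3, k = m ∨ k = m' ∨ k = m'' := by
  revert m
  decide

lemma zt_ext {r : ℕ} {z z' : ZeroTriple r} {m m' : Fin 3} (hm : m ≠ m')
    (h1 : z.1 m = z'.1 m) (h2 : z.1 m' = z'.1 m') : z = z' := by
  obtain ⟨z, hz⟩ := z
  obtain ⟨z', hz'⟩ := z'
  simp only at h1 h2
  have e1 : centered r (z m) = centered r (z' m) := by rw [h1]
  have e2 : centered r (z m') = centered r (z' m') := by rw [h2]
  have key : ∀ k, z k = z' k := by
    intro k
    apply centered_inj r
    fin_cases m <;> fin_cases m' <;> fin_cases k <;> simp at e1 e2 hm ⊢ <;> omega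
  congr 1
  funext k
  exact key k

open Classical in
lemma zt_one {r : ℕ} (m : Fin 3) (v : Fin (2 * r + 1)) :
    (univ.filter (fun z : ZeroTriple r => z.1 m = v)).card ≤ 2 * r + 1 := by
  obtain ⟨m', _, hm, _, _, _⟩ := other m
  have : (univ.filter (fun z : ZeroTriple r => z.1 m = v)).card ≤
      (univ : Finset (Fin (2 * r + 1))).card := by
    apply Finset.card_le_card_of_injOn (fun z => z.1 m')
    · intro p _
      exact Finset.mem_univ _
    · intro p hp p' hp' h
      have h1 := (Finset.mem_filter.1 hp).2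
      have h2 := (Finset.mem_filter.1 hp').2
      exact zt_ext hm (h1.trans h2.symm) h
  rwa [Finset.card_univ, Fintype.card_fin] at this

open Classical in
lemma zt_two {r : ℕ} {m m' : Fin 3} (hm : m ≠ m') (v v' : Fin (2 * r + 1)) :
    (univ.filter (fun z : ZeroTriple r => z.1 m = v ∧ z.1 m' = v')).card ≤ 1 := by
  rw [Finset.card_le_one]
  intro p hp p' hp'
  have h1 := (Finset.mem_filter.1 hp).2
  have h2 := (Finset.mem_filter.1 hp').2
  exact zt_ext hm (h1.1.trans h2.1.symm) (h1.2.trans h2.2.symm)

/-- Three numbers. -/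
def tri3 {α : Type} (a b c : α) (k : Fin 3) : α := if k = 0 then a else if k = 1 then b else c

lemma zt_card (r : ℕ) : (2 * r + 1) * (2 * r + 1) ≤ 2 * Fintype.card (ZeroTriple r) := by
  classical
  let Pg : Fin (2 * r + 1) × Fin (2 * r + 1) → Prop :=
    fun p => r ≤ p.1.val + p.2.val ∧ p.1.val + p.2.val ≤ 3 * r
  have h1 : (univ.filter (fun p => ¬ Pg p)).card ≤ (univ.filter Pg).card := by
    apply Finset.card_le_card_of_injOn
      (fun p : Fin (2 * r + 1) × Fin (2 * r + 1) =>
        if h : p.1.val + p.2.val < r then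
          (p.1, (⟨p.2.val + r, by omega⟩ : Fin (2 * r + 1)))
        else (p.1, (⟨p.2.val - r, by have := p.2.2; omega⟩ : Fin (2 * r + 1))))
    · intro p hp
      have hp' := (Finset.mem_filter.1 hp).2
      rw [Finset.mem_coe, Finset.mem_filter]
      refine ⟨Finset.mem_univ _, ?_⟩
      have b1 := p.1.2
      have b2 := p.2.2
      simp only [Pg] at hp' ⊢
      split_ifs with h
      · simp only; omega
      · simp only; omega
    · rintro ⟨⟨a, ha⟩, ⟨b, hb⟩⟩ hp ⟨⟨a', ha'⟩, ⟨b', hb'⟩⟩ hp' h
      have k1 := (Finset.mem_filter.1 hp).2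
      have k2 := (Finset.mem_filter.1 hp').2
      simp only [Pg] at k1 k2
      simp only at h
      split_ifs at h with h3 h4 h4 <;>
        simp only [Prod.mk.injEq, Fin.mk.injEq] at h ⊢ <;> omega
  have h2 := Finset.card_filter_add_card_filter_not (s := (univ : Finset (Fin (2 * r + 1) ×
    Fin (2 * r + 1)))) Pg
  rw [Finset.card_univ, Fintype.card_prod, Fintype.card_fin] at h2
  have h3 : (univ.filter Pg).card ≤ Fintype.card (ZeroTriple r) := by
    rw [← Finset.card_univ (α := ZeroTriple r)]
    apply Finset.card_le_card_of_injOn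
      (fun p : Fin (2 * r + 1) × Fin (2 * r + 1) =>
        if h : Pg p then
          (⟨tri3 p.1 p.2 ⟨3 * r - (p.1.val + p.2.val), by
            have := h.1; have := h.2; omega⟩, by
            have k1 := h.1
            have k2 := h.2
            show centered r p.1 + centered r p.2 + centered r
              (⟨3 * r - (p.1.val + p.2.val), _⟩ : Fin (2 * r + 1)) = 0
            unfold centered
            simp only
            omega⟩ : ZeroTriple r)
        else ⟨fun _ => ⟨r, by omega⟩, by simp [centered]⟩)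
    · intro p _
      exact Finset.mem_univ _
    · intro p hp p' hp' h
      have k1 := (Finset.mem_filter.1 hp).2
      have k2 := (Finset.mem_filter.1 hp').2
      simp only at h
      rw [dif_pos k1, dif_pos k2] at h
      have h4 := congrArg (fun z : ZeroTriple r => z.1 0) h
      have h5 := congrArg (fun z : ZeroTriple r => z.1 1) h
      simp only [tri3] at h4 h5
      norm_num at h4 h5
      exact Prod.ext h4 h5
  omega

lemma emb_ext {n : ℕ} {c c' : Fin 3 ↪ Fin n} (m m' m'' : Fin 3)
    (hall : ∀ k : Fin 3, k = m ∨ k = m' ∨ k = m'') (h1 : c m = c' m) (h2 : c m' = c' m')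
    (h3 : c m'' = c' m'') : c = c' := by
  apply Function.Embedding.ext
  intro k
  rcases hall k with rfl | rfl | rfl
  · exact h1
  · exact h2
  · exact h3

open Classical in
lemma emb_one {n : ℕ} (m : Fin 3) (f : Fin n) :
    (univ.filter (fun c : Fin 3 ↪ Fin n => c m = f)).card ≤ n ^ 2 := by
  obtain ⟨m', m'', _, _, _, hall⟩ := other m
  have : (univ.filter (fun c : Fin 3 ↪ Fin n => c m = f)).card ≤
      (univ : Finset (Fin n × Fin n)).card := by
    apply Finset.card_le_card_of_injOn (fun c => (c m', c m''))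
    · intro p _
      exact Finset.mem_univ _
    · intro c hc c' hc' h
      have h1 := (Finset.mem_filter.1 hc).2
      have h2 := (Finset.mem_filter.1 hc').2
      simp only [Prod.mk.injEq] at h
      exact emb_ext m m' m'' hall (h1.trans h2.symm) h.1 h.2
  rwa [Finset.card_univ, Fintype.card_prod, Fintype.card_fin, ← pow_two] at this

open Classical in
lemma emb_two {n : ℕ} {m m' : Fin 3} (hm : m ≠ m') (f f' : Fin n) :
    (univ.filter (fun c : Fin 3 ↪ Fin n => c m = f ∧ c m' = f')).card ≤ n := by
  obtain ⟨m'', _, _, hall⟩ := third m m' hm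
  have : (univ.filter (fun c : Fin 3 ↪ Fin n => c m = f ∧ c m' = f')).card ≤
      (univ : Finset (Fin n)).card := by
    apply Finset.card_le_card_of_injOn (fun c => c m'')
    · intro p _
      exact Finset.mem_univ _
    · intro c hc c' hc' h
      have h1 := (Finset.mem_filter.1 hc).2
      have h2 := (Finset.mem_filter.1 hc').2
      exact emb_ext m m' m'' hall (h1.1.trans h2.1.symm) (h1.2.trans h2.2.symm) h
  rwa [Finset.card_univ, Fintype.card_fin] at this

lemma emb_card {n : ℕ} (hn : 3 ≤ n) : 2 * n ^ 3 ≤ 9 * Fintype.card (Fin 3 ↪ Fin n) := by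
  rw [Fintype.card_embedding_eq, Fintype.card_fin, Fintype.card_fin]
  obtain ⟨k, rfl⟩ := Nat.exists_eq_add_of_le hn
  have : (3 + k).descFactorial 3 = (3 + k) * (2 + k) * (1 + k) := by
    simp only [Nat.descFactorial]
    have e1 : 3 + k - 2 = 1 + k := by omega
    have e2 : 3 + k - 1 = 2 + k := by omega
    rw [e1, e2]
    simp
    ring
  rw [this]
  nlinarith [Nat.zero_le (k ^ 2), Nat.zero_le (k ^ 3), Nat.zero_le k]

end H592R3.Hp
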