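import Mathlib
import Pool.Agent.H592R9.SumCount

/-!
Random lists are valid with high probability.
-/

set_option linter.unusedSectionVars false

namespace H592R3.Hp

open Finset SmallDepth

open Classical in
/-- The elements with a property. -/
noncomputable def cs {α : Type} [Fintype α] (P : α → Prop) : Finset α := univ.filter P

/-- The number of elements with a property. -/
noncomputable def cn {α : Type} [Fintype α] (P : α → Prop) : ℕ := (cs P).card

lemma mem_cs {α : Type} [Fintype α] {P : α → Prop} {x : α} : x ∈ cs P ↔ P x := by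
  classical
  unfold cs
  simp

lemma cn_le_inj {α β : Type} [Fintype α] [Fintype β] (P : α → Prop) (f : α → β)
    (hf : ∀ x y, P x → P y → f x = f y → x = y) : cn P ≤ Fintype.card β := by
  unfold cn
  rw [← Finset.card_univ (α := β)]
  apply Finset.card_le_card_of_injOn f
  · intro p _
    exact Finset.mem_univ _
  · intro x hx y hy h
    exact hf x y (mem_cs.1 hx) (mem_cs.1 hy) h

lemma cn_mono {α : Type} [Fintype α] {P Q : α → Prop} (h : ∀ x, P x → Q x) : cn P ≤ cn Q := by
  apply Finset.card_le_card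
  intro x hx
  exact mem_cs.2 (h x (mem_cs.1 hx))

lemma cn_or {α : Type} [Fintype α] (P Q : α → Prop) : cn (fun x => P x ∨ Q x) ≤ cn P + cn Q := by
  classical
  refine (Finset.card_le_card (t := cs P ∪ cs Q) ?_).trans (Finset.card_union_le _ _)
  intro x hx
  rcases mem_cs.1 hx with h | h
  · exact Finset.mem_union_left _ (mem_cs.2 h)
  · exact Finset.mem_union_right _ (mem_cs.2 h)

lemma cn_zero {α : Type} [Fintype α] {P : α → Prop} (h : ∀ x, ¬ P x) : cn P = 0 := by
  unfold cn
  rw [Finset.card_eq_zero, Finset.eq_empty_iff_forall_notMem]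
  intro x hx
  exact h x (mem_cs.1 hx)

lemma cn_not {α : Type} [Fintype α] (P : α → Prop) :
    cn P + cn (fun x => ¬ P x) = Fintype.card α := by
  classical
  have h := Finset.card_filter_add_card_filter_not (s := (univ : Finset α)) P
  rw [Finset.card_univ] at h
  rw [← h]
  unfold cn
  congr 2
  ext x
  simp [mem_cs]

lemma cn_eq_sum {α : Type} [Fintype α] (P : α → Prop) :
    cn P = ∑ x, (open Classical in if P x then 1 else 0) := by
  classical
  rw [← Finset.card_filter]
  unfold cn
  congr 1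

lemma cn_prod {α β : Type} [Fintype α] [Fintype β] (P : α × β → Prop) :
    cn P = ∑ a, cn (fun b => P (a, b)) := by
  simp only [cn_eq_sum]
  rw [Fintype.sum_prod_type]

lemma union_mul {α ι : Type} [Fintype α] [Fintype ι] (P : ι → α → Prop) (R B : ℕ)
    (h : ∀ t, cn (P t) * R ≤ B) : cn (fun x => ∃ t, P t x) * R ≤ Fintype.card ι * B := by
  classical
  have h1 : cn (fun x => ∃ t, P t x) ≤ ∑ t, cn (P t) := by
    refine (Finset.card_le_card (t := univ.biUnion (fun t => cs (P t))) ?_).trans
      Finset.card_biUnion_le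
    intro x hx
    obtain ⟨t, ht⟩ := mem_cs.1 hx
    exact Finset.mem_biUnion.2 ⟨t, Finset.mem_univ _, mem_cs.2 ht⟩
  calc cn (fun x => ∃ t, P t x) * R ≤ (∑ t, cn (P t)) * R := Nat.mul_le_mul_right _ h1
    _ = ∑ t, cn (P t) * R := by rw [Finset.sum_mul]
    _ ≤ ∑ _t : ι, B := Finset.sum_le_sum fun t _ => h t
    _ = Fintype.card ι * B := by rw [Finset.sum_const, Finset.card_univ, smul_eq_mul]

lemma one_coord {n R : ℕ} (i : Fin n) (P : (Fin n → Fin R) → Prop)
    (hP : ∀ x x', P x → P x' → (∀ l, l ≠ i → x l = x' l) → x = x') :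
    cn P * R ≤ Fintype.card (Fin n → Fin R) := by
  classical
  have h := cn_le_inj (α := (Fin n → Fin R) × Fin R) (β := Fin n → Fin R) (fun p => P p.1)
    (fun p => Function.update p.1 i p.2) (by
    rintro ⟨x, v⟩ ⟨x', v'⟩ hx hx' h
    simp only at h hx hx'
    have h1 : v = v' := by
      have := congrFun h i
      simpa using this
    have h2 : x = x' := by
      apply hP x x' hx hx'
      intro l hl
      have := congrFun h l
      rwa [Function.update_of_ne hl, Function.update_of_ne hl] at this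
    rw [h1, h2])
  have h2 : cn (fun p : (Fin n → Fin R) × Fin R => P p.1) = cn P * R := by
    unfold cn
    have h3 : cs (fun p : (Fin n → Fin R) × Fin R => P p.1) =
        (cs P) ×ˢ (univ : Finset (Fin R)) := by
      ext ⟨x, v⟩
      simp [mem_cs]
    rw [h3, Finset.card_product, Finset.card_univ (α := Fin R), Fintype.card_fin]
  rwa [h2] at h

lemma bad_uniform (n r N : ℕ) (hN : N = Fintype.card (Fin n → Fin (2 * r + 1))) :
    cn (fun x : Fin n → Fin (2 * r + 1) => ¬ (Function.Injective (intList x) ∧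
      ¬ HasZeroSum (intList x))) * (2 * r + 1) ≤ (n ^ 2 + n ^ 3) * N := by
  have h1 := union_mul (α := Fin n → Fin (2 * r + 1)) (ι := Fin n × Fin n)
    (fun t x => t.1 ≠ t.2 ∧ x t.1 = x t.2) (2 * r + 1) N
    (by
      rintro ⟨i, j⟩
      rw [hN]
      apply one_coord i
      rintro x x' ⟨h1, h2⟩ ⟨_, h3⟩ h
      funext l
      by_cases hl : l = i
      · rw [hl, h2, h3]
        exact h j (Ne.symm h1)
      · exact h l hl)
  have h2 := union_mul (α := Fin n → Fin (2 * r + 1)) (ι := Fin n × Fin n × Fin n)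
    (fun t x => (t.1 ≠ t.2.1 ∧ t.1 ≠ t.2.2) ∧ centered r (x t.1) + centered r (x t.2.1) +
      centered r (x t.2.2) = 0) (2 * r + 1) N
    (by
      rintro ⟨i, j, k⟩
      rw [hN]
      apply one_coord i
      rintro x x' ⟨⟨h1, h1'⟩, h2⟩ ⟨_, h3⟩ h
      funext l
      by_cases hl : l = i
      · simp only at h1 h1' h2 h3
        rw [hl]
        apply centered_inj r
        rw [h j (Ne.symm h1), h k (Ne.symm h1')] at h2
        linarith
      · exact h l hl)
  rw [Fintype.card_prod, Fintype.card_fin] at h1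
  rw [Fintype.card_prod, Fintype.card_prod, Fintype.card_fin] at h2
  have h3 := (cn_mono (P := fun x : Fin n → Fin (2 * r + 1) =>
      ¬ (Function.Injective (intList x) ∧ ¬ HasZeroSum (intList x)))
      (Q := fun x => (∃ t : Fin n × Fin n, t.1 ≠ t.2 ∧ x t.1 = x t.2) ∨
        (∃ t : Fin n × Fin n × Fin n,
        (t.1 ≠ t.2.1 ∧ t.1 ≠ t.2.2) ∧ centered r (x t.1) + centered r (x t.2.1) +
      centered r (x t.2.2) = 0)) (by
    intro x hx'
    by_cases hinj : Function.Injective (intList x)
    · right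
      have h3 : HasZeroSum (intList x) := by
        by_contra h4
        exact hx' ⟨hinj, h4⟩
      obtain ⟨i, j, k, h4, h5, h6, h7⟩ := h3
      exact ⟨(i, j, k), ⟨h4, h6⟩, h7⟩
    · left
      rw [Function.Injective] at hinj
      push Not at hinj
      obtain ⟨i, j, h3, h4⟩ := hinj
      exact ⟨(i, j), h4, centered_inj r h3⟩)).trans (cn_or _ _)
  have h4 := Nat.mul_le_mul_right (2 * r + 1) h3
  rw [Nat.add_mul] at h4
  refine h4.trans ((Nat.add_le_add h1 h2).trans (le_of_eq ?_))
  ring

lemma plant_apply {n r : ℕ} (c : Fin 3 ↪ Fin n) (z : ZeroTriple r)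
    (x : Fin n → Fin (2 * r + 1)) (m : Fin 3) : plantList c z x (c m) = z.1 m := by
  unfold plantList
  exact c.injective.extend_apply _ _ _

lemma plant_apply' {n r : ℕ} (c : Fin 3 ↪ Fin n) (z : ZeroTriple r)
    (x : Fin n → Fin (2 * r + 1)) (i : Fin n) (hi : ¬ ∃ m, c m = i) :
    plantList c z x i = x i := by
  unfold plantList
  exact Function.extend_apply' _ _ _ hi

lemma plant_zero {n r : ℕ} (c : Fin 3 ↪ Fin n) (z : ZeroTriple r)
    (x : Fin n → Fin (2 * r + 1)) : HasZeroSum (intList (plantList c z x)) := by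
  refine ⟨c 0, c 1, c 2, fun h => ?_, fun h => ?_, fun h => ?_, ?_⟩
  · exact absurd (c.injective h) (by decide)
  · exact absurd (c.injective h) (by decide)
  · exact absurd (c.injective h) (by decide)
  · unfold intList
    rw [plant_apply, plant_apply, plant_apply]
    exact z.2

lemma bad_pair {n r : ℕ} (c : Fin 3 ↪ Fin n) (i j : Fin n) (hij : i ≠ j) (N Z : ℕ)
    (hN : N = Fintype.card (Fin n → Fin (2 * r + 1))) (hZ : Z = Fintype.card (ZeroTriple r)) :
    cn (fun y : ZeroTriple r × (Fin n → Fin (2 * r + 1)) =>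
      plantList c y.1 y.2 i = plantList c y.1 y.2 j) * (2 * r + 1) ≤ 2 * Z * N := by
  have hfib : ∀ (Q : ZeroTriple r → (Fin n → Fin (2 * r + 1)) → Prop),
      (∀ z, cn (Q z) * (2 * r + 1) ≤ N) →
      cn (fun y : ZeroTriple r × (Fin n → Fin (2 * r + 1)) => Q y.1 y.2) *
        (2 * r + 1) ≤ 2 * Z * N := by
    intro Q hQ
    rw [cn_prod, Finset.sum_mul]
    calc ∑ z, cn (fun b => Q z b) * (2 * r + 1) ≤ ∑ _z : ZeroTriple r, N :=
          Finset.sum_le_sum fun z _ => hQ z
      _ = Z * N := by rw [Finset.sum_const, Finset.card_univ, smul_eq_mul, hZ]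
      _ ≤ 2 * Z * N := by
          apply Nat.mul_le_mul_right
          omega
  by_cases hi : ∃ m, c m = i
  · by_cases hj : ∃ m, c m = j
    · obtain ⟨m, rfl⟩ := hi
      obtain ⟨m', rfl⟩ := hj
      have hmm : m ≠ m' := fun h => hij (by rw [h])
      have h2 : cn (fun z : ZeroTriple r => z.1 m = z.1 m') ≤ 2 * r + 1 := by
        have := cn_le_inj (fun z : ZeroTriple r => z.1 m = z.1 m') (fun z => z.1 m) (by
          intro p p' k1 k2 h
          exact zt_ext hmm h (by rw [← k1, ← k2, h]))
        rwa [Fintype.card_fin] at this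
      have h3 := zt_card r
      rw [← hZ] at h3
      have h1 : cn (fun y : ZeroTriple r × (Fin n → Fin (2 * r + 1)) =>
          plantList c y.1 y.2 (c m) = plantList c y.1 y.2 (c m')) ≤
          cn (fun z : ZeroTriple r => z.1 m = z.1 m') * N := by
        classical
        simp only [plant_apply]
        unfold cn
        rw [hN, ← Finset.card_univ (α := Fin n → Fin (2 * r + 1)), ← Finset.card_product]
        refine le_of_eq (congrArg Finset.card ?_)
        ext ⟨x, v⟩
        simp [mem_cs]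
      calc _ ≤ cn (fun z : ZeroTriple r => z.1 m = z.1 m') * N * (2 * r + 1) :=
            Nat.mul_le_mul_right _ h1
        _ ≤ (2 * r + 1) * N * (2 * r + 1) := by gcongr
        _ = ((2 * r + 1) * (2 * r + 1)) * N := by ring
        _ ≤ 2 * Z * N := Nat.mul_le_mul_right _ h3
    · exact hfib (fun z x => plantList c z x i = plantList c z x j) (fun z => by
        rw [hN]
        apply one_coord j
        intro x x' h1 h2 h
        funext l
        by_cases hl : l = j
        · obtain ⟨m, rfl⟩ := hi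
          rw [plant_apply, plant_apply' c z x j hj] at h1
          rw [plant_apply, plant_apply' c z x' j hj] at h2
          rw [hl, ← h1, ← h2]
        · exact h l hl)
  · exact hfib (fun z x => plantList c z x i = plantList c z x j) (fun z => by
      rw [hN]
      apply one_coord i
      intro x x' h1 h2 h
      funext l
      by_cases hl : l = i
      · rw [plant_apply' c z x i hi] at h1
        rw [plant_apply' c z x' i hi] at h2
        rw [hl, h1, h2]
        by_cases hj : ∃ m, c m = j
        · obtain ⟨m, rfl⟩ := hj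
          rw [plant_apply, plant_apply]
        · rw [plant_apply' c z x j hj, plant_apply' c z x' j hj]
          exact h j (Ne.symm hij)
      · exact h l hl)

lemma bad_planted (n r N Z A : ℕ) (hN : N = Fintype.card (Fin n → Fin (2 * r + 1)))
    (hZ : Z = Fintype.card (ZeroTriple r)) (hA : A = Fintype.card (Fin 3 ↪ Fin n)) :
    cn (fun y : (Fin 3 ↪ Fin n) × ZeroTriple r × (Fin n → Fin (2 * r + 1)) =>
      ¬ (Function.Injective (intList (plantList y.1 y.2.1 y.2.2)) ∧
      HasZeroSum (intList (plantList y.1 y.2.1 y.2.2)))) * (2 * r + 1) ≤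
      2 * n ^ 2 * (A * (Z * N)) := by
  have h1 := union_mul (α := (Fin 3 ↪ Fin n) × ZeroTriple r × (Fin n → Fin (2 * r + 1)))
    (ι := Fin n × Fin n) (fun t y => t.1 ≠ t.2 ∧ plantList y.1 y.2.1 y.2.2 t.1 =
      plantList y.1 y.2.1 y.2.2 t.2) (2 * r + 1) (A * (2 * Z * N)) (by
      rintro ⟨i, j⟩
      by_cases hij : i = j
      · have : cn (fun y : (Fin 3 ↪ Fin n) × ZeroTriple r ×
            (Fin n → Fin (2 * r + 1)) => (i, j).1 ≠ (i, j).2 ∧ plantList y.1 y.2.1 y.2.2 (i, j).1 =
            plantList y.1 y.2.1 y.2.2 (i, j).2) = 0 := by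
          apply cn_zero
          rintro y ⟨h, _⟩
          exact h hij
        rw [this]
        simp
      · rw [cn_prod, Finset.sum_mul]
        calc _ ≤ ∑ _c : Fin 3 ↪ Fin n, 2 * Z * N := by
              refine Finset.sum_le_sum fun c _ => ?_
              refine le_trans (Nat.mul_le_mul_right _ (cn_mono ?_))
                (bad_pair c i j hij N Z hN hZ)
              rintro y ⟨_, h⟩
              exact h
          _ = A * (2 * Z * N) := by
              rw [Finset.sum_const, Finset.card_univ, smul_eq_mul, hA])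
  rw [Fintype.card_prod, Fintype.card_fin] at h1
  refine (Nat.mul_le_mul_right _ (cn_mono ?_)).trans (h1.trans (le_of_eq (by ring)))
  intro y hy'
  have hinj : ¬ Function.Injective (intList (plantList y.1 y.2.1 y.2.2)) :=
    fun h => hy' ⟨h, plant_zero _ _ _⟩
  rw [Function.Injective] at hinj
  push Not at hinj
  obtain ⟨i, j, h3, h4⟩ := hinj
  exact ⟨(i, j), h4, centered_inj r h3⟩

lemma prob_ge {G N b : ℕ} (n : ℕ) (hn : 3 ≤ n) (hN : 0 < N) (hGb : G + b = N)
    (hb : b * (2 * n ^ 4 + 1) ≤ (n ^ 2 + n ^ 3) * N) : 1 - 1 / (n : ℝ) ≤ (G : ℝ) / N := by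
  have hnR : (0 : ℝ) < n := by exact_mod_cast (by omega : 0 < n)
  have hNR : (0 : ℝ) < N := by exact_mod_cast hN
  have h1 : b * n ≤ N := by
    by_contra hcon
    push Not at hcon
    have h2 : (n ^ 2 + n ^ 3) * N < (n ^ 2 + n ^ 3) * (b * n) :=
      Nat.mul_lt_mul_of_pos_left hcon (by positivity)
    have h3 : (n ^ 2 + n ^ 3) * (b * n) ≤ b * (2 * n ^ 4 + 1) := by
      have h4 : (n ^ 2 + n ^ 3) * n ≤ 2 * n ^ 4 + 1 := by
        have h5 : n ^ 3 ≤ n ^ 4 := Nat.pow_le_pow_right (by omega) (by norm_num)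
        calc (n ^ 2 + n ^ 3) * n = n ^ 3 + n ^ 4 := by ring
          _ ≤ 2 * n ^ 4 + 1 := by omega
      calc (n ^ 2 + n ^ 3) * (b * n) = b * ((n ^ 2 + n ^ 3) * n) := by ring
        _ ≤ _ := Nat.mul_le_mul_left _ h4
    omega
  have h2 : (b : ℝ) * n ≤ N := by exact_mod_cast h1
  have h3 : (G : ℝ) + b = N := by exact_mod_cast hGb
  rw [le_div_iff₀ hNR]
  have h4 : (b : ℝ) ≤ 1 / n * N := by
    rw [div_mul_eq_mul_div, one_mul, le_div_iff₀ hnR]
    exact h2
  nlinarith

lemma uniformPr_eq (n r : ℕ) (f : (Fin n → ℤ) → Prop) : uniformPr n r f =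
    (cn (fun x : Fin n → Fin (2 * r + 1) => f (intList x)) : ℝ) /
      Fintype.card (Fin n → Fin (2 * r + 1)) := rfl

lemma plantedPr_eq (n r : ℕ) (f : (Fin n → ℤ) → Prop) : plantedPr n r f =
    (cn (fun y : (Fin 3 ↪ Fin n) × ZeroTriple r × (Fin n → Fin (2 * r + 1)) =>
      f (intList (plantList y.1 y.2.1 y.2.2))) : ℝ) /
      Fintype.card ((Fin 3 ↪ Fin n) × ZeroTriple r × (Fin n → Fin (2 * r + 1))) := rfl

theorem valid_prob (n : ℕ) (hn : 3 ≤ n) :
    1 - 1 / (n : ℝ) ≤ uniformPr n (n ^ 4) (fun x => Function.Injective x ∧ ¬ HasZeroSum x) ∧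
    1 - 1 / (n : ℝ) ≤ plantedPr n (n ^ 4) (fun x => Function.Injective x ∧ HasZeroSum x) := by
  obtain ⟨r, hr⟩ : ∃ r, r = n ^ 4 := ⟨_, rfl⟩
  rw [← hr]
  have hprob : ∀ {G N b : ℕ}, 0 < N → G + b = N → b * (2 * r + 1) ≤ (n ^ 2 + n ^ 3) * N →
      1 - 1 / (n : ℝ) ≤ (G : ℝ) / N := by
    intro G N b h1 h2 h3
    rw [hr] at h3
    exact prob_ge n hn h1 h2 h3
  constructor
  · rw [uniformPr_eq]
    exact hprob Fintype.card_pos (cn_not _) (bad_uniform n r _ rfl)
  · rw [plantedPr_eq]
    have h2 := bad_planted n r _ _ _ rfl rfl rfl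
    have e4 : 0 < Fintype.card (Fin n → Fin (2 * r + 1)) := Fintype.card_pos
    have e1 := emb_card hn
    have e2 := zt_card r
    have e3 : 0 < n ^ 3 := by positivity
    have e5 : 0 < (2 * r + 1) * (2 * r + 1) := by positivity
    have e6 : 0 < Fintype.card (Fin 3 ↪ Fin n) := by omega
    have e7 : 0 < Fintype.card (ZeroTriple r) := by omega
    have hcard : Fintype.card ((Fin 3 ↪ Fin n) × ZeroTriple r × (Fin n → Fin (2 * r + 1))) =
        Fintype.card (Fin 3 ↪ Fin n) * (Fintype.card (ZeroTriple r) *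
          Fintype.card (Fin n → Fin (2 * r + 1))) := by
      rw [Fintype.card_prod, Fintype.card_prod]
    refine hprob ?_ (cn_not _) ?_
    · rw [hcard]
      exact Nat.mul_pos e6 (Nat.mul_pos e7 e4)
    · rw [hcard]
      refine h2.trans (Nat.mul_le_mul_right _ ?_)
      have : n ^ 2 ≤ n ^ 3 := Nat.pow_le_pow_right (by omega) (by norm_num)
      omega

end H592R3.Hp
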