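import Mathlib
import Pool.Agent.H592R4.Sum

/-!
Triples hidden in uniformly random values.
-/

set_option linter.unusedSectionVars false

namespace H592R3.Hp

open Finset DomAC0 H568R2 SmallDepth

section Hid
variable {F A Z J : Type} [Fintype F] [DecidableEq F] [Fintype A] [Fintype Z] {R : ℕ} [NeZero R]

/-- The planted positions: the value of cell `f` is shifted by `s f`. -/
def vrs (cl : A → Fin 3 → F) (vz : Z → Fin 3 → Fin R) (s : F → Fin R) (a : A × Z) (m : Fin 3) :
    F × Fin R := (cl a.1 m, vz a.2 m - s (cl a.1 m))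

lemma vrs_cell (cl : A → Fin 3 → F) (hcl : ∀ a, Function.Injective (cl a))
    (vz : Z → Fin 3 → Fin R) (s : F → Fin R) (a : A × Z) (m m' : Fin 3)
    (h : (vrs cl vz s a m).1 = (vrs cl vz s a m').1) : m = m' := hcl a.1 h

lemma vrs_inj (cl : A → Fin 3 → F) (hcl : ∀ a, Function.Injective (cl a))
    (vz : Z → Fin 3 → Fin R) (s : F → Fin R) (a : A × Z) : Function.Injective (vrs cl vz s a) :=
  fun m m' h => vrs_cell cl hcl vz s a m m' (by rw [h])

open Classical in
lemma vrs_one (cl : A → Fin 3 → F) (vz : Z → Fin 3 → Fin R) (s : F → Fin R) {κ1 : ℕ}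
    (hk1 : ∀ (m : Fin 3) (f : F), (univ.filter (fun a : A => cl a m = f)).card ≤ κ1)
    (hz1 : ∀ (m : Fin 3) (v : Fin R), (univ.filter (fun z : Z => vz z m = v)).card ≤ R)
    (m : Fin 3) (x : F × Fin R) :
    (univ.filter (fun a : A × Z => vrs cl vz s a m = x)).card ≤ κ1 * R := by
  have hsub : (univ.filter (fun a : A × Z => vrs cl vz s a m = x)) ⊆
      (univ.filter (fun a : A => cl a m = x.1)) ×ˢ
        (univ.filter (fun z : Z => vz z m = x.2 + s x.1)) := by
    intro a ha
    have ha' := (Finset.mem_filter.1 ha).2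
    rw [Finset.mem_product, Finset.mem_filter, Finset.mem_filter]
    refine ⟨⟨Finset.mem_univ _, by rw [← ha']; rfl⟩, Finset.mem_univ _, ?_⟩
    rw [← ha']
    show vz a.2 m = (vz a.2 m - s (cl a.1 m)) + s (cl a.1 m)
    rw [sub_add_cancel]
  refine (Finset.card_le_card hsub).trans ?_
  rw [Finset.card_product]
  exact Nat.mul_le_mul (hk1 m _) (hz1 m _)

open Classical in
lemma vrs_two (cl : A → Fin 3 → F) (vz : Z → Fin 3 → Fin R) (s : F → Fin R) {κ2 : ℕ}
    (hk2 : ∀ (m m' : Fin 3) (f f' : F), m ≠ m' →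
      (univ.filter (fun a : A => cl a m = f ∧ cl a m' = f')).card ≤ κ2)
    (hz2 : ∀ (m m' : Fin 3) (v v' : Fin R), m ≠ m' →
      (univ.filter (fun z : Z => vz z m = v ∧ vz z m' = v')).card ≤ 1)
    {m m' : Fin 3} (hm : m ≠ m') (x x' : F × Fin R) :
    (univ.filter (fun a : A × Z => vrs cl vz s a m = x ∧ vrs cl vz s a m' = x')).card ≤ κ2 := by
  have hsub : (univ.filter (fun a : A × Z => vrs cl vz s a m = x ∧ vrs cl vz s a m' = x')) ⊆
      (univ.filter (fun a : A => cl a m = x.1 ∧ cl a m' = x'.1)) ×ˢ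
        (univ.filter (fun z : Z => vz z m = x.2 + s x.1 ∧ vz z m' = x'.2 + s x'.1)) := by
    intro a ha
    obtain ⟨h1, h2⟩ := (Finset.mem_filter.1 ha).2
    rw [Finset.mem_product, Finset.mem_filter, Finset.mem_filter]
    refine ⟨⟨Finset.mem_univ _, by rw [← h1]; rfl, by rw [← h2]; rfl⟩, Finset.mem_univ _, ?_, ?_⟩
    · rw [← h1]
      show vz a.2 m = (vz a.2 m - s (cl a.1 m)) + s (cl a.1 m)
      rw [sub_add_cancel]
    · rw [← h2]
      show vz a.2 m' = (vz a.2 m' - s (cl a.1 m')) + s (cl a.1 m')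
      rw [sub_add_cancel]
  refine (Finset.card_le_card hsub).trans ?_
  rw [Finset.card_product]
  calc _ ≤ κ2 * 1 := Nat.mul_le_mul (hk2 m m' _ _ hm) (hz2 m m' _ _ hm)
    _ = κ2 := mul_one _

open Classical in
lemma vrs_count (cl : A → Fin 3 → F) (hcl : ∀ a, Function.Injective (cl a))
    (vz : Z → Fin 3 → Fin R) (s : F → Fin R) {κ1 κ2 : ℕ}
    (hk1 : ∀ (m : Fin 3) (f : F), (univ.filter (fun a : A => cl a m = f)).card ≤ κ1)
    (hk2 : ∀ (m m' : Fin 3) (f f' : F), m ≠ m' →
      (univ.filter (fun a : A => cl a m = f ∧ cl a m' = f')).card ≤ κ2)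
    (hz1 : ∀ (m : Fin 3) (v : Fin R), (univ.filter (fun z : Z => vz z m = v)).card ≤ R)
    (hz2 : ∀ (m m' : Fin 3) (v v' : Fin R), m ≠ m' →
      (univ.filter (fun z : Z => vz z m = v ∧ vz z m' = v')).card ≤ 1)
    (H : Finset (Fin 3)) (V : Finset (F × Fin R)) :
    (univ.filter (fun a : A × Z => H.image (vrs cl vz s a) = V)).card ≤
      kap R κ1 (2 * κ2) (Fintype.card (A × Z)) H := by
  unfold kap
  rcases (univ.filter (fun a : A × Z => H.image (vrs cl vz s a) = V)).eq_empty_or_nonempty with
    he | ⟨a0, ha0⟩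
  · rw [he]; simp
  have ha0' := (Finset.mem_filter.1 ha0).2
  split_ifs with h1 h2
  · obtain ⟨m, rfl⟩ := Finset.card_eq_one.1 h1
    refine le_trans (Finset.card_le_card ?_) (vrs_one cl vz s hk1 hz1 m (vrs cl vz s a0 m))
    intro a ha
    have ha' := (Finset.mem_filter.1 ha).2
    rw [Finset.mem_filter]
    refine ⟨Finset.mem_univ _, ?_⟩
    have h3 := ha'.trans ha0'.symm
    rw [Finset.image_singleton, Finset.image_singleton, Finset.singleton_inj] at h3
    exact h3
  · obtain ⟨m, m', hmm, rfl⟩ := Finset.card_eq_two.1 h2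
    have hsub : (univ.filter (fun a : A × Z =>
        ({m, m'} : Finset (Fin 3)).image (vrs cl vz s a) = V)) ⊆
        (univ.filter (fun a : A × Z => vrs cl vz s a m = vrs cl vz s a0 m ∧
          vrs cl vz s a m' = vrs cl vz s a0 m')) ∪
        (univ.filter (fun a : A × Z => vrs cl vz s a m = vrs cl vz s a0 m' ∧
          vrs cl vz s a m' = vrs cl vz s a0 m)) := by
      intro a ha
      have ha' := (Finset.mem_filter.1 ha).2
      have h3 := ha'.trans ha0'.symm
      rw [Finset.image_insert, Finset.image_singleton, Finset.image_insert,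
        Finset.image_singleton] at h3
      have h4 : vrs cl vz s a m ∈ ({vrs cl vz s a0 m, vrs cl vz s a0 m'} : Finset (F × Fin R)) := by
        rw [← h3]; simp
      have h5 : vrs cl vz s a m' ∈ ({vrs cl vz s a0 m, vrs cl vz s a0 m'} : Finset (F × Fin R)) := by
        rw [← h3]; simp
      have h6 : vrs cl vz s a m ≠ vrs cl vz s a m' := fun h => hmm (vrs_inj cl hcl vz s a h)
      rw [Finset.mem_insert, Finset.mem_singleton] at h4 h5
      rw [Finset.mem_union, Finset.mem_filter, Finset.mem_filter]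
      rcases h4 with h4 | h4 <;> rcases h5 with h5 | h5
      · exact absurd (h4.trans h5.symm) h6
      · exact Or.inl ⟨Finset.mem_univ _, h4, h5⟩
      · exact Or.inr ⟨Finset.mem_univ _, h4, h5⟩
      · exact absurd (h4.trans h5.symm) h6
    refine (Finset.card_le_card hsub).trans ((Finset.card_union_le _ _).trans ?_)
    have e1 := vrs_two cl vz s hk2 hz2 hmm (vrs cl vz s a0 m) (vrs cl vz s a0 m')
    have e2 := vrs_two cl vz s hk2 hz2 hmm (vrs cl vz s a0 m') (vrs cl vz s a0 m)
    omega
  · exact (Finset.card_filter_le _ _).trans (le_of_eq Finset.card_univ)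

/-- The values of the cells. -/
noncomputable def shv (X : (F × Fin R) → Bool) (s : F → Fin R) (f : F) : Fin R :=
  (dec X f).getD 0 + s f

lemma shv_row (enc : (F → Fin R) → J → Bool)
    (henc : ∀ j, ∃ f, ∀ x x' : F → Fin R, x f = x' f → enc x j = enc x' j) (s : F → Fin R) :
    RowDep (fun X : (F × Fin R) → Bool => enc (shv X s)) := by
  intro j
  obtain ⟨f, hf⟩ := henc j
  refine ⟨f, fun X X' h => hf _ _ ?_⟩
  unfold shv
  rw [dec_congr h]

open Classical in
/-- The planted rows are empty. -/
def Em (c : Fin 3 → F) (X : (F × Fin R) → Bool) : Prop :=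
  ∀ i ∈ univ.filter (fun i : F × Fin R => ∃ m, c m = i.1), X i = false

open Classical in
lemma em_prob {c : Fin 3 → F} (hc : Function.Injective c) (p : ℝ) :
    Ex (vp p) (fun X : (F × Fin R) → Bool => if Em c X then (1 : ℝ) else 0) =
      (1 - p) ^ (3 * R) := by
  have h := ex_all (I := F × Fin R) (vp_sum p) (fun b => b = false)
    (univ.filter (fun i : F × Fin R => ∃ m, c m = i.1))
  have hcard : (univ.filter (fun i : F × Fin R => ∃ m, c m = i.1)).card = 3 * R := by
    have h1 : univ.filter (fun i : F × Fin R => ∃ m, c m = i.1) =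
        (univ.image c) ×ˢ (univ : Finset (Fin R)) := by
      ext ⟨f, r⟩
      simp
    rw [h1, Finset.card_product, Finset.card_image_of_injective _ hc, Finset.card_univ,
      Finset.card_univ, Fintype.card_fin, Fintype.card_fin]
  rw [hcard] at h
  refine Eq.trans ?_ (h.trans ?_)
  · unfold Em
    congr!
  · congr 1
    rw [Finset.sum_filter, Fintype.sum_bool]
    simp [vp]

lemma shv_plant {cl : A → Fin 3 → F} (hcl : ∀ a, Function.Injective (cl a))
    {vz : Z → Fin 3 → Fin R} (s : F → Fin R) (a : A × Z) {X : (F × Fin R) → Bool}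
    (h : Em (cl a.1) X) :
    shv (plant (vrs cl vz s a) univ X) s = Function.extend (cl a.1) (vz a.2) (shv X s) := by
  classical
  funext f
  by_cases hf : ∃ m, cl a.1 m = f
  · obtain ⟨m, rfl⟩ := hf
    rw [(hcl a.1).extend_apply]
    have h1 : dec (plant (vrs cl vz s a) univ X) (cl a.1 m) =
        some (vz a.2 m - s (cl a.1 m)) := by
      rw [dec_iff]
      constructor
      · unfold plant
        simp only [Bool.or_eq_true, decide_eq_true_eq]
        exact Or.inl ⟨m, Finset.mem_univ _, rfl⟩
      · intro r' hr'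
        unfold plant at hr'
        simp only [Bool.or_eq_true, decide_eq_true_eq] at hr'
        rcases hr' with ⟨m', _, h2⟩ | h2
        · have h3 : cl a.1 m' = cl a.1 m := congrArg Prod.fst h2
          have h4 : m' = m := hcl a.1 h3
          subst h4
          exact (congrArg Prod.snd h2).symm
        · have h3 := h (cl a.1 m, r') (Finset.mem_filter.2 ⟨Finset.mem_univ _, m, rfl⟩)
          rw [h3] at h2
          cases h2
    unfold shv
    rw [h1, Option.getD_some, sub_add_cancel]
  · rw [Function.extend_apply' _ _ _ (by simpa using hf)]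
    unfold shv
    rw [dec_congr (X' := X)]
    intro r
    have h2 : ¬ ∃ m ∈ (univ : Finset (Fin 3)), vrs cl vz s a m = (f, r) := by
      rintro ⟨m, _, hm⟩
      exact hf ⟨m, congrArg Prod.fst hm⟩
    unfold plant
    refine Bool.eq_iff_iff.2 ?_
    simp only [Bool.or_eq_true, decide_eq_true_eq]
    exact ⟨fun h' => h'.resolve_left h2, Or.inr⟩

/-- Averaging over all shifts. -/
lemma shv_sum (X : (F × Fin R) → Bool) (g : (F → Fin R) → ℝ) :
    ∑ s : F → Fin R, g (shv X s) = ∑ x : F → Fin R, g x := by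
  have h : Function.Bijective (fun s : F → Fin R => shv X s) := by
    have h1 : Function.Injective (fun s : F → Fin R => shv X s) := by
      intro s s' hs
      funext f
      have h2 := congrFun hs f
      unfold shv at h2
      exact add_left_cancel h2
    exact ⟨h1, Finite.surjective_of_injective h1⟩
  exact h.sum_comp g

end Hid

end H592R3.Hp
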