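import Mathlib
import Pool.Agent.H592R9.Hid

/-!
The advantage of circuits for triples hidden in uniformly random values.
-/

set_option linter.unusedSectionVars false

namespace H592R3.Hp

open Finset DomAC0 H568R2 SmallDepth

section Hid
variable {F A Z J : Type} [Fintype F] [DecidableEq F] [Fintype A] [Fintype Z] {R : ℕ} [NeZero R]

open Classical in
/-- The transfer from the planted bits to random values. -/
lemma hid_transfer (cl : A → Fin 3 → F) (hcl : ∀ a, Function.Injective (cl a))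
    (vz : Z → Fin 3 → Fin R) (enc : (F → Fin R) → J → Bool) (C : Circuit J)
    {p : ℝ} (hp0 : 0 ≤ p) (hp1 : p ≤ 1) {B : ℝ}
    (hB : ∀ s : F → Fin R, Ex (vp p) (fun X : (F × Fin R) → Bool =>
      cntS (vrs cl vz s) (fun X => enc (shv X s)) C X) ≤ B) :
    |∑ a : A × Z, ∑ x : F → Fin R, ((if C.eval (enc x) = true then (1 : ℝ) else 0) -
      (if C.eval (enc (Function.extend (cl a.1) (vz a.2) x)) = true then (1 : ℝ) else 0))| *
      (1 - p) ^ (3 * R) ≤ Fintype.card (F → Fin R) * B := by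
  have hw : 0 ≤ (1 - p) ^ (3 * R) := pow_nonneg (by linarith) _
  have hμ : ∀ X : (F × Fin R) → Bool, 0 ≤ ∏ i, vp p (X i) := fun X =>
    Finset.prod_nonneg fun i _ => vp_nonneg hp0 hp1 _
  have e1 : (∑ a : A × Z, ∑ x : F → Fin R, ((if C.eval (enc x) = true then (1 : ℝ) else 0) -
      (if C.eval (enc (Function.extend (cl a.1) (vz a.2) x)) = true then (1 : ℝ) else 0))) *
      (1 - p) ^ (3 * R) =
      ∑ a : A × Z, ∑ X : (F × Fin R) → Bool, ∑ s : F → Fin R, (∏ i, vp p (X i)) *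
        ((if Em (cl a.1) X then (1 : ℝ) else 0) *
        ((if C.eval (enc (shv X s)) = true then (1 : ℝ) else 0) -
        (if C.eval (enc (shv (plant (vrs cl vz s a) univ X) s)) = true then (1 : ℝ) else 0))) := by
    rw [Finset.sum_mul]
    refine Finset.sum_congr rfl fun a _ => ?_
    rw [← em_prob (hcl a.1) p]
    unfold Ex
    rw [Finset.mul_sum]
    refine Finset.sum_congr rfl fun X _ => ?_
    beta_reduce
    obtain ⟨D, hD⟩ : ∃ D : (F → Fin R) → ℝ, D = fun x =>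
        ((if C.eval (enc x) = true then (1 : ℝ) else 0) -
        (if C.eval (enc (Function.extend (cl a.1) (vz a.2) x)) = true then (1 : ℝ) else 0)) :=
      ⟨_, rfl⟩
    have hDs : ∑ x : F → Fin R, ((if C.eval (enc x) = true then (1 : ℝ) else 0) -
        (if C.eval (enc (Function.extend (cl a.1) (vz a.2) x)) = true then (1 : ℝ) else 0)) =
        ∑ x, D x := by rw [hD]
    rw [hDs]
    by_cases hX : Em (cl a.1) X
    · have h1 : ∀ s : F → Fin R, (∏ i, vp p (X i)) * ((if Em (cl a.1) X then (1 : ℝ) else 0) *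
          ((if C.eval (enc (shv X s)) = true then (1 : ℝ) else 0) -
          (if C.eval (enc (shv (plant (vrs cl vz s a) univ X) s)) = true then (1 : ℝ) else 0))) =
          (∏ i, vp p (X i)) * D (shv X s) := by
        intro s
        rw [if_pos hX, shv_plant hcl s a hX, one_mul, hD]
      rw [Finset.sum_congr rfl fun s _ => h1 s, ← Finset.mul_sum, shv_sum X D, if_pos hX, mul_one,
        mul_comm]
    · rw [if_neg hX, mul_zero, mul_zero]
      refine (Finset.sum_eq_zero fun s _ => ?_).symm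
      rw [zero_mul, mul_zero]
  rw [← abs_of_nonneg hw, ← abs_mul, e1]
  refine (Finset.abs_sum_le_sum_abs _ _).trans ?_
  have e2 : ∀ a : A × Z, |∑ X : (F × Fin R) → Bool, ∑ s : F → Fin R, (∏ i, vp p (X i)) *
        ((if Em (cl a.1) X then (1 : ℝ) else 0) *
        ((if C.eval (enc (shv X s)) = true then (1 : ℝ) else 0) -
        (if C.eval (enc (shv (plant (vrs cl vz s a) univ X) s)) = true then (1 : ℝ) else 0)))| ≤
      ∑ X : (F × Fin R) → Bool, ∑ s : F → Fin R, (∏ i, vp p (X i)) *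
        (if C.eval (enc (shv X s)) ≠ C.eval (enc (shv (plant (vrs cl vz s a) univ X) s))
          then (1 : ℝ) else 0) := by
    intro a
    refine (Finset.abs_sum_le_sum_abs _ _).trans (Finset.sum_le_sum fun X _ => ?_)
    refine (Finset.abs_sum_le_sum_abs _ _).trans (Finset.sum_le_sum fun s _ => ?_)
    rw [abs_mul, abs_of_nonneg (hμ X)]
    apply mul_le_mul_of_nonneg_left _ (hμ X)
    rw [abs_mul]
    have h1 : |(if Em (cl a.1) X then (1 : ℝ) else 0)| ≤ 1 := by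
      split_ifs <;> simp
    have h2 : |(if C.eval (enc (shv X s)) = true then (1 : ℝ) else 0) -
        (if C.eval (enc (shv (plant (vrs cl vz s a) univ X) s)) = true then (1 : ℝ) else 0)| ≤
        (if C.eval (enc (shv X s)) ≠ C.eval (enc (shv (plant (vrs cl vz s a) univ X) s))
          then (1 : ℝ) else 0) := by
      cases h3 : C.eval (enc (shv X s)) <;>
        cases h4 : C.eval (enc (shv (plant (vrs cl vz s a) univ X) s)) <;> simp
    calc _ ≤ 1 * _ := mul_le_mul h1 h2 (abs_nonneg _) zero_le_one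
      _ = _ := one_mul _
  refine (Finset.sum_le_sum fun a _ => e2 a).trans ?_
  have e3 : (∑ a : A × Z, ∑ X : (F × Fin R) → Bool, ∑ s : F → Fin R, (∏ i, vp p (X i)) *
        (if C.eval (enc (shv X s)) ≠ C.eval (enc (shv (plant (vrs cl vz s a) univ X) s))
          then (1 : ℝ) else 0)) = ∑ s : F → Fin R, Ex (vp p) (fun X : (F × Fin R) → Bool =>
      cntS (vrs cl vz s) (fun X => enc (shv X s)) C X) := by
    rw [Finset.sum_comm]
    have h1 : ∀ X : (F × Fin R) → Bool, ∑ a : A × Z, ∑ s : F → Fin R, (∏ i, vp p (X i)) *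
        (if C.eval (enc (shv X s)) ≠ C.eval (enc (shv (plant (vrs cl vz s a) univ X) s))
          then (1 : ℝ) else 0) = ∑ s : F → Fin R, (∏ i, vp p (X i)) *
          cntS (vrs cl vz s) (fun X => enc (shv X s)) C X := by
      intro X
      rw [Finset.sum_comm]
      refine Finset.sum_congr rfl fun s _ => ?_
      rw [← Finset.mul_sum]
      rfl
    rw [Finset.sum_congr rfl fun X _ => h1 X, Finset.sum_comm]
    rfl
  rw [e3]
  refine (Finset.sum_le_sum fun s _ => hB s).trans (le_of_eq ?_)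
  rw [Finset.sum_const, Finset.card_univ, nsmul_eq_mul]

open Classical in
/-- The first moment. -/
lemma hid_first [Fintype J] (cl : A → Fin 3 → F) (hcl : ∀ a, Function.Injective (cl a))
    (vz : Z → Fin 3 → Fin R) {κ1 κ2 : ℕ}
    (hk1 : ∀ (m : Fin 3) (f : F), (univ.filter (fun a : A => cl a m = f)).card ≤ κ1)
    (hk2 : ∀ (m m' : Fin 3) (f f' : F), m ≠ m' →
      (univ.filter (fun a : A => cl a m = f ∧ cl a m' = f')).card ≤ κ2)
    (hz1 : ∀ (m : Fin 3) (v : Fin R), (univ.filter (fun z : Z => vz z m = v)).card ≤ R)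
    (hz2 : ∀ (m m' : Fin 3) (v v' : Fin R), m ≠ m' →
      (univ.filter (fun z : Z => vz z m = v ∧ vz z m' = v')).card ≤ 1)
    (enc : (F → Fin R) → J → Bool)
    (henc : ∀ j, ∃ f, ∀ x x' : F → Fin R, x f = x' f → enc x j = enc x' j)
    (C : Circuit J) {d S h l : ℕ} (hd : C.depth ≤ d) (hS : C.size ≤ S) (hh : 1 ≤ h)
    (hlen : Fintype.card J + S + 2 ≤ 2 ^ l) {β : ℝ} (hβ0 : 0 ≤ β) (hβ1 : β ≤ 1)
    (hN1 : 13824 * (S : ℝ) * (24 * h) ^ (2 * d) * (h : ℝ) ^ 2 * (l : ℝ) ^ 2 * κ2 * R ^ 2 +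
      144 * (24 * (h : ℝ)) ^ d * h * κ1 * R ^ 2 ≤ β * Fintype.card (A × Z))
    (hN2 : (((S : ℝ) + 1) * 8 *
      (24 * R * (24 * (h : ℝ)) ^ d) ^ 4) *
      (3 * Fintype.card F * (1 / 12) ^ (h + 1) +
        d * ((S * (Fintype.card J + S + 1) : ℕ) : ℝ) * (1 / 2) ^ (h + 1)) ≤ β)
    (s : F → Fin R) :
    Ex (vp (1 / (24 * (R : ℝ)))) (fun X : (F × Fin R) → Bool =>
      cntS (vrs cl vz s) (fun X => enc (shv X s)) C X) ≤ 2 * β * Fintype.card (A × Z) := by
  have hR : 0 < R := Nat.pos_of_ne_zero (NeZero.ne R)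
  have hRR : (0 : ℝ) < R := by exact_mod_cast hR
  have hhR : (1 : ℝ) ≤ h := by exact_mod_cast hh
  have hR1 : (1 : ℝ) ≤ R := by exact_mod_cast hR
  obtain ⟨τ, hτ⟩ : ∃ τ : ℕ, τ = 24 * h := ⟨_, rfl⟩
  have hτR : (τ : ℝ) = 24 * h := by rw [hτ]; push_cast; ring
  have hτ1 : (1 : ℝ) ≤ (24 * (h : ℝ)) ^ d := one_le_pow₀ (by linarith)
  obtain ⟨y, hy⟩ : ∃ y : ℝ, y = 1 / (12 * R) := ⟨_, rfl⟩
  have hy0 : 0 < y := by rw [hy]; positivity
  have hy1 : y ≤ 1 := by
    rw [hy, div_le_one (by positivity)]; linarith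
  have hy2 : y / 2 = 1 / (24 * R) := by rw [hy]; field_simp; ring
  obtain ⟨q, hq⟩ : ∃ q : ℝ, q = 1 * (1 / (τ : ℝ)) ^ d := ⟨_, rfl⟩
  obtain ⟨c, hc⟩ : ∃ c : ℝ, c = 24 * R * (24 * (h : ℝ)) ^ d := ⟨_, rfl⟩
  have hc1 : 1 ≤ c := by
    rw [hc]
    nlinarith
  have hcyq : 2 ≤ c * (y * q) := by
    rw [hc, hy, hq, hτR, one_mul, one_div_pow]
    apply le_of_eq
    field_simp
    norm_num
  obtain ⟨ε, hε⟩ : ∃ ε : ℝ, ε = 3 * Fintype.card F * (1 / 12) ^ (h + 1) +
        d * ((S * (Fintype.card J + S + 1) : ℕ) : ℝ) * (1 / 2) ^ (h + 1) := ⟨_, rfl⟩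
  rw [← hc, ← hε] at hN2
  have hσ := shv_row enc henc s
  have hbas := hσ.bas_prob (h := h) hy0.le hy1 (q0 := 1) zero_le_one (le_refl _)
  have hbas2 : (Fintype.card F : ℝ) * (R * y * 1) ^ (h + 1) ≤
      3 * Fintype.card F * (1 / 12) ^ (h + 1) := by
    have h1 : (R : ℝ) * y * 1 = 1 / 12 := by
      rw [hy]
      field_simp
    rw [h1]
    have h2 : (0 : ℝ) ≤ Fintype.card F * (1 / 12) ^ (h + 1) := by positivity
    linarith
  have hε2 : 3 * Fintype.card F * (1 / 12) ^ (h + 1) +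
      d * ((S * (Fintype.card J + S + 1) : ℕ) : ℝ) * (12 * h * (1 / (τ : ℝ))) ^ (h + 1) ≤ ε := by
    rw [hε, hτR]
    apply le_of_eq
    congr 3
    field_simp
    norm_num
  obtain ⟨T, hT⟩ : ∃ T : ℕ, T = Fintype.card (A × Z) := ⟨_, rfl⟩
  have hT0 : (0 : ℝ) ≤ T := Nat.cast_nonneg _
  obtain ⟨Bg, hBg⟩ : ∃ Bg : ℝ, Bg = 3 * (c ^ 2 * (((2 * (h * l)) ^ 2 * (2 * κ2) : ℕ) : ℝ)) :=
    ⟨_, rfl⟩
  obtain ⟨Bs, hBs⟩ : ∃ Bs : ℝ, Bs = 3 * (c * (((2 * h) * (κ1 * R) : ℕ) : ℝ)) := ⟨_, rfl⟩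
  have hBN : S * Bg + Bs ≤ β * T := by
    rw [← hT] at hN1
    refine le_trans (le_of_eq ?_) hN1
    rw [hBg, hBs, hc]
    push_cast
    rw [pow_mul' (24 * (h : ℝ)) 2 d]
    ring
  have hmain := circ_moment (vrs cl vz s) (vrs_inj cl hcl vz s)
    (kap R κ1 (2 * κ2) (Fintype.card (A × Z)))
    (vrs_count cl hcl vz s hk1 hk2 hz1 hz2) C (fun X => enc (shv X s))
    (fun a X j => hσ.low (vrs cl vz s) (vrs_cell cl hcl vz s) a X j)
    (h := h) (d := d) (τ := τ) (by omega) hd hS (L := 2) (l := l) (le_refl _) hlen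
    hy0 hy1 (q0 := 1) (by norm_num) (le_refl _) hq (hbas.trans hbas2) hcyq hc1 hε2
    (Bg := Bg) (Bs := Bs) (by rw [kap_sum_two, hBg]) (by rw [kap_sum_one, hBs])
    (by
      rw [← hT]
      refine hBN.trans ?_
      nlinarith) 1
  rw [← hT, Fintype.card_fin, hy2] at hmain
  simp only [pow_one, Nat.cast_one, one_mul] at hmain
  have e1 : ((S : ℝ) + 1) * 2 ^ 3 * c ^ (2 * 2) = ((S : ℝ) + 1) * 8 * c ^ 4 := by norm_num
  rw [e1] at hmain
  rw [← hT]
  refine hmain.trans ?_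
  have h3 : (T : ℝ) * (((S : ℝ) + 1) * 8 * c ^ 4) * ε ≤ T * β := by
    rw [mul_assoc]
    exact mul_le_mul_of_nonneg_left hN2 hT0
  linarith

end Hid

end H592R3.Hp
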