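import Mathlib
import Pool.Agent.H592R9.Hid2
import Pool.Agent.H592R9.Param6

/-!
Small-depth circuits do not find triples hidden in uniformly random values.
-/

set_option linter.unusedSectionVars false

namespace H592R3.Hp

open Finset DomAC0 H568R2 SmallDepth

lemma weight_ge {R : ℕ} (hR : 0 < R) : (7 : ℝ) / 8 ≤ (1 - 1 / (24 * (R : ℝ))) ^ (3 * R) := by
  have hRR : (0 : ℝ) < R := by exact_mod_cast hR
  have hR1 : (1 : ℝ) ≤ R := by exact_mod_cast hR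
  have h1 : (-2 : ℝ) ≤ -(1 / (24 * (R : ℝ))) := by
    have : 1 / (24 * (R : ℝ)) ≤ 1 := by
      rw [div_le_one (by positivity)]; linarith
    linarith
  have h2 := one_add_mul_le_pow h1 (3 * R)
  have h3 : (1 : ℝ) + ((3 * R : ℕ) : ℝ) * -(1 / (24 * (R : ℝ))) = 7 / 8 := by
    push_cast
    field_simp
    norm_num
  rw [h3] at h2
  rw [sub_eq_add_neg]
  exact h2

open Classical in
theorem hidden_triple (ε : ℝ) (hε : 0 < ε) (hε1 : ε ≤ 1) : ∃ C : ℝ, 0 < C ∧ ∀ n d : ℕ, 2 ≤ n →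
    1 ≤ d → C * (d * Real.log (Real.log n + 2)) ≤ Real.log n →
    ∀ (F A Z J : Type) [Fintype F] [DecidableEq F] [Fintype A] [Fintype Z] [Fintype J]
      (R : ℕ) [NeZero R] (cl : A → Fin 3 → F) (_ : ∀ a, Function.Injective (cl a))
      (vz : Z → Fin 3 → Fin R) (κ1 κ2 : ℕ),
      Fintype.card J ≤ n ^ 4 → Fintype.card F ≤ n ^ 2 → R ≤ n ^ 5 →
      (∀ (m : Fin 3) (f : F), (univ.filter (fun a : A => cl a m = f)).card ≤ κ1) →
      (∀ (m m' : Fin 3) (f f' : F), m ≠ m' →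
        (univ.filter (fun a : A => cl a m = f ∧ cl a m' = f')).card ≤ κ2) →
      (∀ (m : Fin 3) (v : Fin R), (univ.filter (fun z : Z => vz z m = v)).card ≤ R) →
      (∀ (m m' : Fin 3) (v v' : Fin R), m ≠ m' →
        (univ.filter (fun z : Z => vz z m = v ∧ vz z m' = v')).card ≤ 1) →
      ∀ B : ℝ, B ≤ 3 → (n : ℝ) ^ B * κ2 * R ^ 2 ≤ 100 * Fintype.card (A × Z) →
      (n : ℝ) * κ1 * R ^ 2 ≤ 100 * Fintype.card (A × Z) →
      ∀ (enc : (F → Fin R) → J → Bool),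
        (∀ j, ∃ f, ∀ x x' : F → Fin R, x f = x' f → enc x j = enc x' j) →
      ∀ (K : Circuit J), K.depth ≤ d → (K.size : ℝ) ≤ (n : ℝ) ^ (B - ε) →
      |∑ a : A × Z, ∑ x : F → Fin R, ((if K.eval (enc x) = true then (1 : ℝ) else 0) -
        (if K.eval (enc (Function.extend (cl a.1) (vz a.2) x)) = true then (1 : ℝ) else 0))| ≤
      (n : ℝ) ^ (-(ε / 2)) * (Fintype.card (A × Z) * Fintype.card (F → Fin R)) := by
  obtain ⟨C, hC, hpar⟩ := params6 (ε / 2) (by linarith)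
  refine ⟨C, hC, ?_⟩
  intro n d hn hd hCd F A Z J _ _ _ _ _ R _ cl hcl vz κ1 κ2 hJ hF hRn hk1 hk2 hz1 hz2 B hB3
    hc1 hc2 enc henc K hK1 hK2
  have hnR : (2 : ℝ) ≤ n := by exact_mod_cast hn
  have hn0 : (0 : ℝ) < n := by linarith
  have hn1 : (1 : ℝ) ≤ n := by linarith
  have hR : 0 < R := Nat.pos_of_ne_zero (NeZero.ne R)
  have hRR : (0 : ℝ) < R := by exact_mod_cast hR
  have hR1 : (1 : ℝ) ≤ R := by exact_mod_cast hR
  obtain ⟨h, l, hh1, hX1, hX2, hrest⟩ := hpar n d hn hd hCd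
  obtain ⟨S, hS⟩ : ∃ S : ℕ, S = K.size := ⟨_, rfl⟩
  rw [← hS] at hK2
  have hS3 : (S : ℝ) ≤ (n : ℝ) ^ (3 : ℝ) :=
    hK2.trans (Real.rpow_le_rpow_of_exponent_le hn1 (by linarith))
  obtain ⟨hlen, hN2⟩ := hrest S hS3 (Fintype.card J) (Fintype.card F) R hJ hF hRn
  obtain ⟨T, hT⟩ : ∃ T : ℕ, T = Fintype.card (A × Z) := ⟨_, rfl⟩
  have hT0 : (0 : ℝ) ≤ T := Nat.cast_nonneg _
  rw [← hT] at hc1 hc2 ⊢
  obtain ⟨β, hβ⟩ : ∃ β : ℝ, β = (n : ℝ) ^ (-(ε / 2)) / 100 := ⟨_, rfl⟩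
  have hn1' : (n : ℝ) ^ (-(1 : ℝ)) ≤ (n : ℝ) ^ (-(ε / 2)) :=
    Real.rpow_le_rpow_of_exponent_le hn1 (by linarith)
  have hβ0 : 0 ≤ β := by rw [hβ]; positivity
  have hβ1 : β ≤ 1 := by
    have : (n : ℝ) ^ (-(ε / 2)) ≤ 1 := Real.rpow_le_one_of_one_le_of_nonpos hn1 (by linarith)
    rw [hβ]; linarith
  have hβn : 1 / (256 * (n : ℝ)) ≤ β := by
    rw [hβ]
    have h1 : (n : ℝ) ^ (-(1 : ℝ)) = 1 / n := by
      rw [Real.rpow_neg hn0.le, Real.rpow_one, one_div]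
    rw [h1] at hn1'
    have h2 : 1 / (256 * (n : ℝ)) = 1 / n / 256 := by field_simp
    rw [h2]
    have h3 : (0 : ℝ) < 1 / n := by positivity
    linarith
  obtain ⟨X1, hX1d⟩ : ∃ X1 : ℝ, X1 = (24 * (h : ℝ)) ^ (2 * d) * (h : ℝ) ^ 2 * (l : ℝ) ^ 2 :=
    ⟨_, rfl⟩
  obtain ⟨X2, hX2d⟩ : ∃ X2 : ℝ, X2 = (24 * (h : ℝ)) ^ d * h := ⟨_, rfl⟩
  rw [← hX1d] at hX1
  rw [← hX2d] at hX2
  have hX10 : 0 ≤ X1 := by rw [hX1d]; positivity
  have hX20 : 0 ≤ X2 := by rw [hX2d]; positivity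
  have hN1 : 13824 * (S : ℝ) * (24 * h) ^ (2 * d) * (h : ℝ) ^ 2 * (l : ℝ) ^ 2 * κ2 * R ^ 2 +
      144 * (24 * (h : ℝ)) ^ d * h * κ1 * R ^ 2 ≤ β * T := by
    have e1 : 13824 * (S : ℝ) * (24 * h) ^ (2 * d) * (h : ℝ) ^ 2 * (l : ℝ) ^ 2 * κ2 * R ^ 2 =
        13824 * S * X1 * (κ2 * R ^ 2) := by rw [hX1d]; ring
    have e2 : 144 * (24 * (h : ℝ)) ^ d * h * κ1 * R ^ 2 = 144 * X2 * (κ1 * R ^ 2) := by
      rw [hX2d]; ring
    rw [e1, e2]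
    have hκR : (0 : ℝ) ≤ κ2 * R ^ 2 := by positivity
    have hκR1 : (0 : ℝ) ≤ κ1 * R ^ 2 := by positivity
    have f1 : 10 ^ 12 * ((S : ℝ) * X1 * (κ2 * R ^ 2)) ≤ 100 * ((n : ℝ) ^ (-(ε / 2)) * T) := by
      calc 10 ^ 12 * ((S : ℝ) * X1 * (κ2 * R ^ 2)) =
          S * (10 ^ 12 * X1) * (κ2 * R ^ 2) := by ring
        _ ≤ (n : ℝ) ^ (B - ε) * (n : ℝ) ^ (ε / 2) * (κ2 * R ^ 2) := by
            apply mul_le_mul_of_nonneg_right _ hκR
            exact mul_le_mul hK2 hX1 (by positivity) (by positivity)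
        _ = (n : ℝ) ^ (-(ε / 2)) * ((n : ℝ) ^ B * κ2 * R ^ 2) := by
            have : (n : ℝ) ^ (B - ε) * (n : ℝ) ^ (ε / 2) = (n : ℝ) ^ (-(ε / 2)) * (n : ℝ) ^ B := by
              rw [← Real.rpow_add hn0, ← Real.rpow_add hn0]
              congr 1
              ring
            rw [this]
            ring
        _ ≤ (n : ℝ) ^ (-(ε / 2)) * (100 * T) :=
            mul_le_mul_of_nonneg_left hc1 (by positivity)
        _ = 100 * ((n : ℝ) ^ (-(ε / 2)) * T) := by ring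
    have f2 : 10 ^ 9 * (X2 * (κ1 * R ^ 2)) ≤ 100 * ((n : ℝ) ^ (-(ε / 2)) * T) := by
      calc 10 ^ 9 * (X2 * (κ1 * R ^ 2)) = (10 ^ 9 * X2) * (κ1 * R ^ 2) := by ring
        _ ≤ (n : ℝ) ^ (ε / 2) * (κ1 * R ^ 2) := mul_le_mul_of_nonneg_right hX2 hκR1
        _ ≤ ((n : ℝ) ^ (-(ε / 2)) * n) * (κ1 * R ^ 2) := by
            apply mul_le_mul_of_nonneg_right _ hκR1
            have : (n : ℝ) ^ (-(ε / 2)) * n = (n : ℝ) ^ (1 - ε / 2) := by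
              rw [show (1 - ε / 2 : ℝ) = -(ε / 2) + 1 by ring, Real.rpow_add hn0, Real.rpow_one]
            rw [this]
            exact Real.rpow_le_rpow_of_exponent_le hn1 (by linarith)
        _ = (n : ℝ) ^ (-(ε / 2)) * (n * κ1 * R ^ 2) := by ring
        _ ≤ (n : ℝ) ^ (-(ε / 2)) * (100 * T) :=
            mul_le_mul_of_nonneg_left hc2 (by positivity)
        _ = 100 * ((n : ℝ) ^ (-(ε / 2)) * T) := by ring
    have f3 : 0 ≤ (n : ℝ) ^ (-(ε / 2)) * T := by positivity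
    have f4 : β * T = (n : ℝ) ^ (-(ε / 2)) * T / 100 := by rw [hβ]; ring
    rw [f4]
    linarith
  have hRp : (1 : ℝ) / (24 * R) ≤ 1 := by
    rw [div_le_one (by positivity)]; linarith
  have hRp0 : (0 : ℝ) ≤ 1 / (24 * R) := by positivity
  have hB' := hid_first cl hcl vz hk1 hk2 hz1 hz2 enc henc K hK1 (le_of_eq hS.symm) hh1 hlen hβ0 hβ1
    (by rw [← hT]; exact hN1) (hN2.trans hβn)
  have hmain := hid_transfer cl hcl vz enc K hRp0 hRp hB'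
  rw [← hT] at hmain
  have hw := weight_ge hR
  obtain ⟨W, hW⟩ : ∃ W : ℝ, W = |∑ a : A × Z, ∑ x : F → Fin R,
      ((if K.eval (enc x) = true then (1 : ℝ) else 0) -
      (if K.eval (enc (Function.extend (cl a.1) (vz a.2) x)) = true then (1 : ℝ) else 0))| :=
    ⟨_, rfl⟩
  rw [← hW] at hmain ⊢
  have hW0 : 0 ≤ W := by rw [hW]; exact abs_nonneg _
  obtain ⟨N, hN⟩ : ∃ N : ℝ, N = (Fintype.card (F → Fin R) : ℝ) := ⟨_, rfl⟩
  rw [← hN] at hmain ⊢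
  have hN0 : 0 ≤ N := by rw [hN]; positivity
  have g1 : W * (7 / 8) ≤ N * (2 * β * T) :=
    (mul_le_mul_of_nonneg_left hw hW0).trans hmain
  have g2 : N * (2 * β * T) = (n : ℝ) ^ (-(ε / 2)) * (T * N) * (1 / 50) := by rw [hβ]; ring
  rw [g2] at g1
  have g3 : 0 ≤ (n : ℝ) ^ (-(ε / 2)) * (T * N) := by positivity
  linarith

end H592R3.Hp
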