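import Mathlib
import Pool.Agent.H592R9.SumCount
import Pool.Agent.H592R9.Hid3

/-!
The average-case lower bound for 3SUM.
-/

set_option linter.unusedSectionVars false

namespace H592R3.Hp

open Finset DomAC0 SmallDepth

open Classical in
lemma card_filter_real {α : Type} [Fintype α] (P : α → Prop) :
    ((univ.filter P).card : ℝ) = ∑ x, if P x then (1 : ℝ) else 0 := by
  rw [Finset.card_filter]
  push_cast
  rfl

open Classical in
theorem sum_avg (ε : ℝ) (hε : 0 < ε) (hε1 : ε ≤ 1) : ∃ C : ℝ, 0 < C ∧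
    ∀ n d r : ℕ, 3 ≤ n → 1 ≤ d → C * (d * Real.log (Real.log n + 2)) ≤ Real.log n →
      2 * r + 1 ≤ n ^ 5 →
    ∀ (J : Type) [Fintype J] (enc : (Fin n → ℤ) → J → Bool), Fintype.card J ≤ n ^ 4 →
      (∀ j, ∃ i, ∀ x x' : Fin n → ℤ, x i = x' i → enc x j = enc x' j) →
    ∀ K : Circuit J, K.depth ≤ d → (K.size : ℝ) ≤ (n : ℝ) ^ (2 - ε) →
      |uniformPr n r (fun x => K.eval (enc x) = true) -
        plantedPr n r (fun x => K.eval (enc x) = true)| ≤ (n : ℝ) ^ (-(ε / 2)) := by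
  obtain ⟨C, hC, h⟩ := hidden_triple ε hε hε1
  refine ⟨C, hC, ?_⟩
  intro n d r hn hd hCd hr J _ enc hJ henc K hK1 hK2
  have hnR : (3 : ℝ) ≤ n := by exact_mod_cast hn
  have hn0 : (0 : ℝ) < n := by linarith
  have : NeZero (2 * r + 1) := ⟨by omega⟩
  obtain ⟨N, hN⟩ : ∃ N : ℝ, N = (Fintype.card (Fin n → Fin (2 * r + 1)) : ℝ) := ⟨_, rfl⟩
  obtain ⟨T, hT⟩ : ∃ T : ℝ, T = (Fintype.card ((Fin 3 ↪ Fin n) × ZeroTriple r) : ℝ) := ⟨_, rfl⟩
  have hN0 : 0 < N := by
    rw [hN]
    have : 0 < Fintype.card (Fin n → Fin (2 * r + 1)) := Fintype.card_pos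
    exact_mod_cast this
  have c1 := emb_card hn
  have c2 := zt_card r
  have hTb : (n : ℝ) ^ 3 * ((2 * r + 1 : ℕ) : ℝ) ^ 2 ≤ 9 * T := by
    have h1 : n ^ 3 * ((2 * r + 1) * (2 * r + 1)) ≤
        9 * (Fintype.card (Fin 3 ↪ Fin n) * Fintype.card (ZeroTriple r)) := by
      have h2 := Nat.mul_le_mul c1 c2
      nlinarith
    rw [hT, Fintype.card_prod]
    have h3 : ((n ^ 3 * ((2 * r + 1) * (2 * r + 1)) : ℕ) : ℝ) ≤
        ((9 * (Fintype.card (Fin 3 ↪ Fin n) * Fintype.card (ZeroTriple r)) : ℕ) : ℝ) := by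
      exact_mod_cast h1
    push_cast at h3 ⊢
    linarith
  have hT0 : 0 < T := by
    have : 0 < (n : ℝ) ^ 3 * ((2 * r + 1 : ℕ) : ℝ) ^ 2 := by positivity
    linarith
  have hmain := h n d (by omega) hd hCd (Fin n) (Fin 3 ↪ Fin n) (ZeroTriple r) J (2 * r + 1)
    (fun c => c) (fun c => c.injective) (fun z => z.1) (n ^ 2) n hJ
    (by rw [Fintype.card_fin]; nlinarith) hr
    (fun m f => by
      have := emb_one m f
      convert this) (fun m m' f f' hm => by
      have := emb_two hm f f'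
      convert this) (fun m v => by
      have := zt_one (r := r) m v
      convert this) (fun m m' v v' hm => by
      have := zt_two (r := r) hm v v'
      convert this) 2 (by norm_num) (by
      rw [← hT]
      have : (n : ℝ) ^ (2 : ℝ) = (n : ℝ) ^ 2 := by norm_cast
      rw [this]
      have e : (n : ℝ) ^ 2 * n * ((2 * r + 1 : ℕ) : ℝ) ^ 2 =
        (n : ℝ) ^ 3 * ((2 * r + 1 : ℕ) : ℝ) ^ 2 := by ring
      rw [e]
      linarith) (by
      rw [← hT]
      have e : (n : ℝ) * ((n ^ 2 : ℕ) : ℝ) * ((2 * r + 1 : ℕ) : ℝ) ^ 2 =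
        (n : ℝ) ^ 3 * ((2 * r + 1 : ℕ) : ℝ) ^ 2 := by push_cast; ring
      rw [e]
      linarith) (fun x => enc (intList x)) (by
      intro j
      obtain ⟨i, hi⟩ := henc j
      exact ⟨i, fun x x' hx => hi _ _ (by unfold intList; rw [hx])⟩) K hK1 hK2
  rw [← hT, ← hN] at hmain
  have e1 : uniformPr n r (fun x => K.eval (enc x) = true) =
      (∑ x : Fin n → Fin (2 * r + 1),
        (if K.eval (enc (intList x)) = true then (1 : ℝ) else 0)) / N := by
    unfold uniformPr
    rw [card_filter_real, hN]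
    congr 1
    refine Finset.sum_congr rfl fun x _ => ?_
    beta_reduce
    by_cases hx : K.eval (enc (intList x)) = true
    · rw [if_pos hx, if_pos hx]
    · rw [if_neg hx, if_neg hx]
  have e2 : plantedPr n r (fun x => K.eval (enc x) = true) =
      (∑ a : (Fin 3 ↪ Fin n) × ZeroTriple r, ∑ x : Fin n → Fin (2 * r + 1),
        (if K.eval (enc (intList (Function.extend a.1 a.2.1 x))) = true then (1 : ℝ) else 0)) /
        (T * N) := by
    unfold plantedPr
    rw [card_filter_real]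
    congr 1
    · rw [Fintype.sum_prod_type, Fintype.sum_prod_type]
      refine Finset.sum_congr rfl fun c _ => ?_
      rw [Fintype.sum_prod_type]
      refine Finset.sum_congr rfl fun z _ => Finset.sum_congr rfl fun x _ => ?_
      unfold plantList
      beta_reduce
      by_cases hx : K.eval (enc (intList (Function.extend c z.1 x))) = true
      · rw [if_pos hx, if_pos hx]
      · rw [if_neg hx, if_neg hx]
    · rw [hT, hN, Fintype.card_prod, Fintype.card_prod, Fintype.card_prod]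
      push_cast
      ring
  obtain ⟨P0, hP0⟩ : ∃ P0 : ℝ, P0 = ∑ x : Fin n → Fin (2 * r + 1),
        (if K.eval (enc (intList x)) = true then (1 : ℝ) else 0) := ⟨_, rfl⟩
  obtain ⟨P1, hP1⟩ : ∃ P1 : ℝ, P1 = ∑ a : (Fin 3 ↪ Fin n) × ZeroTriple r,
        ∑ x : Fin n → Fin (2 * r + 1),
        (if K.eval (enc (intList (Function.extend a.1 a.2.1 x))) = true then (1 : ℝ) else 0) :=
    ⟨_, rfl⟩
  rw [e1, e2, ← hP0, ← hP1]
  have e3 : (∑ a : (Fin 3 ↪ Fin n) × ZeroTriple r, ∑ x : Fin n → Fin (2 * r + 1),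
      ((if K.eval (enc (intList x)) = true then (1 : ℝ) else 0) -
      (if K.eval (enc (intList (Function.extend a.1 a.2.1 x))) = true then (1 : ℝ) else 0))) =
      T * P0 - P1 := by
    simp_rw [Finset.sum_sub_distrib]
    rw [← hP0, ← hP1, Finset.sum_const, Finset.card_univ, nsmul_eq_mul, hT]
  have hmain' : |T * P0 - P1| ≤ (n : ℝ) ^ (-(ε / 2)) * (T * N) := by
    rw [← e3]
    exact hmain
  have e4 : P0 / N - P1 / (T * N) = (T * P0 - P1) / (T * N) := by
    field_simp
  rw [e4, abs_div, abs_of_pos (mul_pos hT0 hN0), div_le_iff₀ (mul_pos hT0 hN0)]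
  exact hmain'

end H592R3.Hp
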